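import Pool.Agent.Lib.MP_d4af01_co.Final

/-!
Extremal 28-element subsets in abelian groups of order 125.
-/

open Finset
open scoped Pointwise

namespace Pool.Agent.Results.MP_d4af01_co.CosetFormIff

open Pool.Agent.MP_d4af01_co

universe u

/-- The set of all sums of subsets of `A` (the empty sum `0` is allowed). -/
def SubsetSums {G : Type u} [AddCommGroup G] (A : Finset G) : Set G :=
  {g | ∃ B : Finset G, B ⊆ A ∧ ∑ b ∈ B, b = g}

/-- `A = H ∪ A₁ ∪ A₂`, where `H` is a subgroup of order `|G| / 5` and for some `a ∈ A` we have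
`A₁ ⊆ a + H` and `A₂ ⊆ -a + H`. -/
def CosetForm {G : Type u} [AddCommGroup G] (A : Set G) : Prop :=
  ∃ (H : AddSubgroup G) (A₁ A₂ : Set G) (a : G),
    Nat.card H = Nat.card G / 5 ∧ a ∈ A ∧ A = (H : Set G) ∪ A₁ ∪ A₂ ∧
      (∀ x ∈ A₁, ∃ h ∈ H, x = a + h) ∧ (∀ x ∈ A₂, ∃ h ∈ H, x = -a + h)

section

variable {G : Type u} [AddCommGroup G] [DecidableEq G]

lemma subsetSums_eq (A : Finset G) : SubsetSums A = (ss A : Set G) := by
  ext g
  simp only [SubsetSums, Set.mem_ofPred_eq, mem_coe, mem_ss]

lemma subsetSums_univ [Fintype G] (A : Finset G) : SubsetSums A = Set.univ ↔ ss A = univ := by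
  rw [subsetSums_eq, ← coe_univ, coe_inj]

lemma ss_erase_zero (A : Finset G) : ss (A.erase 0) = ss A := by
  by_cases h : (0 : G) ∈ A
  · have h1 : insert 0 (A.erase 0) = A := insert_erase h
    conv_rhs => rw [← h1, ss_insert (notMem_erase _ _)]
    simp
  · rw [erase_eq_of_notMem h]

variable [Fintype G]

/-- Sets in coset form do not have all elements as subset sums. -/
theorem not_univ_of_cosetForm (hG : Fintype.card G = 125) (A : Finset G) (hA : A.card = 28)
    (h : CosetForm (A : Set G)) : ss A ≠ univ := by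
  classical
  obtain ⟨H, A₁, A₂, a, hH, haA, hAeq, hA₁, hA₂⟩ := h
  have hH : Nat.card H = 25 := by
    rw [hH, Nat.card_eq_fintype_card (α := G), hG]
  let K : Finset G := univ.filter (fun x => x ∈ H)
  have hK : ∀ x, x ∈ K ↔ x ∈ H := by intro x; simp [K]
  have hKcard : K.card = 25 := by
    rw [← hH, Nat.card_eq_fintype_card, Fintype.card_subtype]
  have hKA : K ⊆ A := by
    intro x hx
    have : x ∈ (A : Set G) := by
      rw [hAeq]; exact Or.inl (Or.inl ((hK x).1 hx))
    exact this
  have hcard3 : (A \ K).card = 3 := by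
    rw [card_sdiff_of_subset hKA, hA, hKcard]
  let φ : G →+ G ⧸ H := QuotientAddGroup.mk' H
  have hφ : ∀ x, φ x = 0 ↔ x ∈ H := fun x => QuotientAddGroup.eq_zero_iff x
  have : Fintype (G ⧸ H) := Fintype.ofFinite _
  have hQ : Fintype.card (G ⧸ H) = 5 := by
    have h1 := AddSubgroup.card_eq_card_quotient_mul_card_addSubgroup H
    rw [hH, Nat.card_eq_fintype_card, hG, Nat.card_eq_fintype_card] at h1
    omega
  have hpm : ∀ x ∈ A \ K, φ x = φ a ∨ φ x = - φ a := by
    intro x hx
    rw [mem_sdiff, hK] at hx
    have h1 : x ∈ (A : Set G) := hx.1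
    rw [hAeq] at h1
    rcases h1 with (h1 | h1) | h1
    · exact absurd h1 hx.2
    · obtain ⟨y, hy, rfl⟩ := hA₁ x h1
      left; rw [map_add, (hφ y).2 hy, add_zero]
    · obtain ⟨y, hy, rfl⟩ := hA₂ x h1
      right; rw [map_add, (hφ y).2 hy, add_zero, map_neg]
  -- positive and negative elements
  let P : Finset G := (A \ K).filter (fun x => φ x = φ a)
  let N : Finset G := (A \ K).filter (fun x => ¬ φ x = φ a)
  have hPN : P.card + N.card = 3 := by
    rw [← hcard3]; exact card_filter_add_card_filter_not _
  intro huniv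
  have hsub : (univ : Finset (G ⧸ H)) ⊆
      (range 4).image (fun i : ℕ => ((i : ℤ) - N.card) • φ a) := by
    intro q _
    obtain ⟨g, rfl⟩ := QuotientAddGroup.mk'_surjective H q
    have hg : g ∈ ss A := by rw [huniv]; exact mem_univ _
    obtain ⟨B, hB, hBg⟩ := mem_ss.1 hg
    rw [mem_image]
    refine ⟨(B ∩ P).card + (N.card - (B ∩ N).card), ?_, ?_⟩
    · have h1 : (B ∩ P).card ≤ P.card := card_le_card inter_subset_right
      rw [mem_range]; omega
    · have h2 : (B ∩ N).card ≤ N.card := card_le_card inter_subset_right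
      have hBsplit : B = (B ∩ K) ∪ ((B ∩ P) ∪ (B ∩ N)) := by
        ext x
        simp only [mem_union, mem_inter, P, N, mem_filter, mem_sdiff]
        constructor
        · intro hx
          by_cases hxK : x ∈ K
          · left; exact ⟨hx, hxK⟩
          · right
            by_cases hxa : φ x = φ a
            · left; exact ⟨hx, ⟨hB hx, hxK⟩, hxa⟩
            · right; exact ⟨hx, ⟨hB hx, hxK⟩, hxa⟩
        · rintro (h | h | h) <;> exact h.1
      have hd1 : Disjoint (B ∩ P) (B ∩ N) := by
        rw [disjoint_left]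
        intro x hx hx'
        simp only [mem_inter, P, N, mem_filter] at hx hx'
        exact hx'.2.2 hx.2.2
      have hd2 : Disjoint (B ∩ K) ((B ∩ P) ∪ (B ∩ N)) := by
        rw [disjoint_left]
        intro x hx hx'
        simp only [mem_union, mem_inter, P, N, mem_filter, mem_sdiff] at hx hx'
        rcases hx' with h | h
        · exact h.2.1.2 hx.2
        · exact h.2.1.2 hx.2
      have hs1 : ∑ b ∈ B ∩ K, φ b = 0 := by
        refine sum_eq_zero fun x hx => (hφ x).2 ((hK x).1 (mem_inter.1 hx).2)
      have hs2 : ∑ b ∈ B ∩ P, φ b = (B ∩ P).card • φ a := by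
        rw [← sum_const]
        refine sum_congr rfl fun x hx => ?_
        exact (mem_filter.1 (mem_inter.1 hx).2).2
      have hs3 : ∑ b ∈ B ∩ N, φ b = (B ∩ N).card • (-φ a) := by
        rw [← sum_const]
        refine sum_congr rfl fun x hx => ?_
        have h3 := mem_filter.1 (mem_inter.1 hx).2
        rcases hpm x h3.1 with h4 | h4
        · exact absurd h4 h3.2
        · exact h4
      have hsum : φ g = (B ∩ P).card • φ a + (B ∩ N).card • (-φ a) := by
        rw [← hBg, map_sum, hBsplit, sum_union hd2, sum_union hd1, ← hBsplit, hs1, hs2, hs3,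
          zero_add]
      change _ = φ g
      rw [hsum]
      have h5 : (((B ∩ P).card + (N.card - (B ∩ N).card) : ℕ) : ℤ) - (N.card : ℤ)
          = ((B ∩ P).card : ℤ) - ((B ∩ N).card : ℤ) := by
        push_cast [Nat.cast_sub h2]; ring
      rw [h5, sub_smul, natCast_zsmul, natCast_zsmul, smul_neg, sub_eq_add_neg]
  have h6 := card_le_card hsub
  rw [card_univ, hQ] at h6
  have h7 := card_image_le (s := range 4) (f := fun i : ℕ => ((i : ℤ) - N.card) • φ a)
  rw [card_range] at h7
  omega

/-- If some subset sum is missing, the set has coset form. -/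
theorem cosetForm_of_ne_univ (hG : Fintype.card G = 125) (A : Finset G) (hA : A.card = 28)
    (h : ss A ≠ univ) : CosetForm (A : Set G) := by
  classical
  set S := A.erase 0 with hS
  have hS0 : (0 : G) ∉ S := notMem_erase _ _
  have hSA : ss S = ss A := ss_erase_zero A
  have hScard : 27 ≤ S.card := by
    have h1 := pred_card_le_card_erase (s := A) (a := (0 : G))
    rw [← hS] at h1
    omega
  have hSne : ss S ≠ univ := hSA ▸ h
  by_cases hdense : ∃ H : AddSubgroup G, ∃ K : Finset G, (K : Set G) = H ∧ K.card = 25 ∧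
      9 ≤ (S ∩ K).card
  · obtain ⟨H, K, hK, hK25, h9⟩ := hdense
    have hKm : ∀ x, x ∈ K ↔ x ∈ H := by
      intro x
      rw [← mem_coe, hK, SetLike.mem_coe]
    have hHcard : Nat.card H = 25 := by
      have h2 : Nat.card H = Nat.card (H : Set G) := rfl
      rw [h2, ← hK]
      simpa using hK25
    let φ : G →+ G ⧸ H := QuotientAddGroup.mk' H
    have hφ : ∀ x, φ x = 0 ↔ x ∈ H := fun x => QuotientAddGroup.eq_zero_iff x
    have : Fintype (G ⧸ H) := Fintype.ofFinite _
    have hQ : Fintype.card (G ⧸ H) = 5 := by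
      have h1 := AddSubgroup.card_eq_card_quotient_mul_card_addSubgroup H
      rw [hHcard, Nat.card_eq_fintype_card, hG, Nat.card_eq_fintype_card] at h1
      omega
    have hord : ∀ s ∈ S \ K, 5 ≤ addOrderOf (φ s) := by
      intro s hs
      refine order_ge_five ⟨1, by rw [hQ]; norm_num⟩ _ ?_
      rw [Ne, hφ]
      intro h
      exact (mem_sdiff.1 hs).2 ((hKm s).2 h)
    have hlt : ¬ 5 ≤ ((ss (S \ K)).image φ).card := fun h5 =>
      hSne (dense hG S hS0 H K hK hK25 h9 φ rfl h5)
    have h3 : (S \ K).card ≤ 3 := by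
      by_contra hcon
      apply hlt
      have h5 := image_growth φ 5 {0} (singleton_nonempty _) (S \ K) hord
      rw [Finset.singleton_zero, zero_add] at h5
      have : (((0 : Finset G).image φ).card) = 1 := by
        rw [← Finset.singleton_zero, image_singleton, card_singleton]
      omega
    have h0K : (0 : G) ∈ K := (hKm 0).2 H.zero_mem
    have hSK : S ∩ K ⊆ K.erase 0 := by
      intro x hx
      rw [mem_inter] at hx
      exact mem_erase.2 ⟨fun h => hS0 (h ▸ hx.1), hx.2⟩
    have hSKc : (S ∩ K).card ≤ 24 := by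
      have := card_le_card hSK
      rwa [card_erase_of_mem h0K, hK25] at this
    have hsplit := card_sdiff_add_card_inter S K
    have hSK' : S ∩ K = K.erase 0 := by
      refine eq_of_subset_of_card_le hSK ?_
      rw [card_erase_of_mem h0K, hK25]
      omega
    have h3' : (S \ K).card = 3 := by omega
    have h0A : (0 : G) ∈ A := by
      by_contra h0
      have : S.card = 28 := by rw [hS, erase_eq_of_notMem h0, hA]
      omega
    have hKA : ∀ x ∈ K, x ∈ A := by
      intro x hx
      by_cases hx0 : x = 0
      · rw [hx0]; exact h0A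
      · have : x ∈ S ∩ K := by rw [hSK']; exact mem_erase.2 ⟨hx0, hx⟩
        exact mem_of_mem_erase (mem_inter.1 this).1
    obtain ⟨a, ha⟩ : (S \ K).Nonempty := by rw [← card_pos]; omega
    have haS := (mem_sdiff.1 ha).1
    have hpm : ∀ y ∈ S \ K, φ y = φ a ∨ φ y = - φ a := by
      intro y hy
      by_contra hcon
      push Not at hcon
      obtain ⟨hne1, hne2⟩ := hcon
      apply hlt
      have hay : a ≠ y := fun h => hne1 (by rw [h])
      have hsub : ({a, y} : Finset G) ⊆ S \ K := by
        intro x hx
        simp only [mem_insert, mem_singleton] at hx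
        rcases hx with rfl | rfl
        · exact ha
        · exact hy
      have hφa : φ a ≠ 0 := by
        rw [Ne, hφ]; intro h; exact (mem_sdiff.1 ha).2 ((hKm a).2 h)
      have hφy : φ y ≠ 0 := by
        rw [Ne, hφ]; intro h; exact (mem_sdiff.1 hy).2 ((hKm y).2 h)
      have h4 : 4 ≤ ((ss ({a, y} : Finset G)).image φ).card := by
        have h6 : ({0, φ a, φ y, φ a + φ y} : Finset (G ⧸ H)) ⊆ (ss {a, y}).image φ := by
          intro x hx
          simp only [mem_insert, mem_singleton] at hx
          rw [mem_image]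
          rcases hx with rfl | rfl | rfl | rfl
          · exact ⟨0, zero_mem_ss _, map_zero φ⟩
          · exact ⟨a, mem_ss.2 ⟨{a}, by simp, by simp⟩, rfl⟩
          · exact ⟨y, mem_ss.2 ⟨{y}, by simp, by simp⟩, rfl⟩
          · exact ⟨a + y, mem_ss.2 ⟨{a, y}, subset_rfl, by rw [sum_pair hay]⟩, map_add φ _ _⟩
        have h7 : ({0, φ a, φ y, φ a + φ y} : Finset (G ⧸ H)).card = 4 := by
          rw [card_insert_of_notMem, card_insert_of_notMem, card_insert_of_notMem,
            card_singleton]
          · simp only [mem_singleton]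
            intro h; exact hφa (by simpa using h.symm)
          · simp only [mem_insert, mem_singleton, not_or]
            exact ⟨fun h => hne1 h.symm, fun h => hφy (by simpa using h.symm)⟩
          · simp only [mem_insert, mem_singleton, not_or]
            refine ⟨hφa.symm, hφy.symm, fun h => hne2 ?_⟩
            rw [eq_neg_iff_add_eq_zero, add_comm]; exact h.symm
        rw [← h7]; exact card_le_card h6
      have h1 : ((S \ K) \ {a, y}).card = 1 := by
        rw [card_sdiff_of_subset hsub, card_pair hay, h3']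
      have h8 := image_growth φ 5 (ss {a, y}) (ss_nonempty _) ((S \ K) \ {a, y})
        (fun s hs => hord s (mem_sdiff.1 hs).1)
      rw [← ss_union disjoint_sdiff, union_sdiff_of_subset hsub] at h8
      omega
    refine ⟨H, {x | x ∈ A ∧ φ x = φ a}, {x | x ∈ A ∧ φ x = - φ a}, a, ?_, ?_, ?_, ?_, ?_⟩
    · rw [hHcard, Nat.card_eq_fintype_card, hG]
    · exact mem_of_mem_erase haS
    · ext x
      simp only [Set.mem_union, Set.mem_ofPred_eq, SetLike.mem_coe]
      constructor
      · intro hx
        by_cases hxH : x ∈ H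
        · exact Or.inl (Or.inl hxH)
        · have hxS : x ∈ S \ K := by
            rw [mem_sdiff, hKm]
            exact ⟨mem_erase.2 ⟨fun h => hxH (h ▸ H.zero_mem), hx⟩, hxH⟩
          rcases hpm x hxS with h | h
          · exact Or.inl (Or.inr ⟨hx, h⟩)
          · exact Or.inr ⟨hx, h⟩
      · rintro ((hx | hx) | hx)
        · exact hKA x ((hKm x).2 hx)
        · exact hx.1
        · exact hx.1
    · rintro x ⟨_, hx⟩
      refine ⟨x - a, ?_, by abel⟩
      rw [← hφ, map_sub, hx, sub_self]
    · rintro x ⟨_, hx⟩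
      refine ⟨x + a, ?_, by abel⟩
      rw [← hφ, map_add, hx, neg_add_cancel]
  · exfalso
    obtain ⟨S', hS'S, hS'c⟩ := exists_subset_card_eq hScard
    have h1 := spread hG S' (fun h => hS0 (hS'S h)) hS'c (by
      intro H K hK hK25
      by_contra hcon
      push Not at hcon
      apply hdense
      refine ⟨H, K, hK, hK25, ?_⟩
      have : S' ∩ K ⊆ S ∩ K := inter_subset_inter_right hS'S
      have := card_le_card this
      omega)
    apply hSne
    rw [← univ_subset_iff, ← h1]
    exact ss_mono hS'S

end

/-- In every abelian group `G` of order `125`, a `28`-element subset `A` has a missing subset sum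
exactly when `A` has coset form. -/
theorem result (G : Type u) [AddCommGroup G] (hG : Nat.card G = 125) (A : Finset G)
    (hA : A.card = 28) : SubsetSums A ≠ Set.univ ↔ CosetForm (A : Set G) := by
  classical
  have hfin : Finite G := Nat.finite_of_card_ne_zero (by rw [hG]; norm_num)
  have : Fintype G := Fintype.ofFinite G
  rw [Nat.card_eq_fintype_card] at hG
  rw [Ne, subsetSums_univ]
  exact ⟨cosetForm_of_ne_univ hG A hA, not_univ_of_cosetForm hG A hA⟩

end Pool.Agent.Results.MP_d4af01_co.CosetFormIff
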